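import Pool.Agent.H31.SX.TargetsD
import Pool.Agent.H29.THC.DFV

/-!
X_DV: sums over the divisors.
-/

set_option autoImplicit false

open NumberField
open scoped nonZeroDivisors

namespace Pool.Agent.H20.SX.DV

open Pool.Agent.H25.HK Pool.Agent.H23.LB Pool.Agent.H31.SX
open Pool.Agent.H29.TC (dvs)
open Pool.Agent.H29.THC (pf_DF card_small)
open UniqueFactorizationMonoid

variable {K : Type} [Field K] [NumberField K]

/-- the terms -/
noncomputable def f (e : Ideal (𝓞 K)) : ℝ := (Real.sqrt (Nf K e))⁻¹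

theorem f_nonneg (e : Ideal (𝓞 K)) : 0 ≤ f e := inv_nonneg.2 (Real.sqrt_nonneg _)

theorem f_mul (a b : Ideal (𝓞 K)) : f (a * b) = f a * f b := by
  unfold f Nf
  rw [map_mul, Nat.cast_mul, Real.sqrt_mul (Nat.cast_nonneg _), mul_inv]

theorem f_one : f (1 : Ideal (𝓞 K)) = 1 := by
  unfold f Nf
  simp

theorem f_pow (a : Ideal (𝓞 K)) (i : ℕ) : f (a ^ i) = f a ^ i := by
  induction i with
  | zero => rw [pow_zero, pow_zero, f_one]
  | succ i ih => rw [pow_succ, pow_succ, f_mul, ih]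

/-- the sum over the divisors -/
noncomputable def S (k : Ideal (𝓞 K)) : ℝ := ∑ e ∈ dvs K k, f e

theorem S_mul (x y : Ideal (𝓞 K)) (hx : x ≠ ⊥) (hy : y ≠ ⊥) : S (x * y) ≤ S x * S y := by
  classical
  unfold S
  have hxy : x * y ≠ ⊥ := mul_ne_zero hx hy
  have hsub : dvs K (x * y) ⊆ (dvs K x ×ˢ dvs K y).image (fun p => p.1 * p.2) := by
    intro e he
    have h1 : x * y ≤ e := (pf_DF K (x * y) hxy e).1 he
    obtain ⟨a, b, ha, hb, hab⟩ := exists_dvd_and_dvd_of_dvd_mul (Ideal.dvd_iff_le.2 h1)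
    exact Finset.mem_image.2 ⟨(a, b), Finset.mem_product.2
      ⟨(pf_DF K x hx a).2 (Ideal.dvd_iff_le.1 ha), (pf_DF K y hy b).2 (Ideal.dvd_iff_le.1 hb)⟩,
      hab.symm⟩
  calc ∑ e ∈ dvs K (x * y), f e ≤ ∑ e ∈ (dvs K x ×ˢ dvs K y).image (fun p => p.1 * p.2), f e :=
        Finset.sum_le_sum_of_subset_of_nonneg hsub fun e _ _ => f_nonneg e
    _ ≤ ∑ p ∈ dvs K x ×ˢ dvs K y, f (p.1 * p.2) :=
        Finset.sum_image_le_of_nonneg (fun p _ => f_nonneg _)
    _ = (∑ e ∈ dvs K x, f e) * ∑ e ∈ dvs K y, f e := by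
        rw [Finset.sum_mul_sum, ← Finset.sum_product']
        exact Finset.sum_congr rfl fun p _ => f_mul _ _

/-- the factors of the bound -/
noncomputable def w (P : Ideal (𝓞 K)) : ℝ := (if Ideal.absNorm P = 2 then 2 else 1) * Ideal.absNorm P

theorem two_le (P : Ideal (𝓞 K)) (hP : Prime P) : 2 ≤ Ideal.absNorm P := by
  have h4 : Ideal.absNorm P ≠ 0 := fun h0 => hP.ne_zero (Ideal.absNorm_eq_zero_iff.1 h0)
  have h5 : Ideal.absNorm P ≠ 1 := fun h1 => hP.not_isUnit
    (Ideal.isUnit_iff.2 (Ideal.absNorm_eq_one_iff.1 h1))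
  omega

theorem S_pow (P : Ideal (𝓞 K)) (hP : Prime P) (i : ℕ) : S (P ^ i) ≤ w P := by
  classical
  unfold S
  have hne : P ^ i ≠ ⊥ := pow_ne_zero i hP.ne_zero
  have hsub : dvs K (P ^ i) ⊆ (Finset.range (i + 1)).image (fun a => P ^ a) := by
    intro e he
    have h1 : P ^ i ≤ e := (pf_DF K (P ^ i) hne e).1 he
    obtain ⟨a, ha, hea⟩ := (dvd_prime_pow hP i).1 (Ideal.dvd_iff_le.2 h1)
    exact Finset.mem_image.2 ⟨a, Finset.mem_range.2 (by omega), (associated_iff_eq.1 hea).symm⟩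
  have h1 : ∑ e ∈ dvs K (P ^ i), f e ≤ ∑ a ∈ Finset.range (i + 1), f P ^ a := by
    calc ∑ e ∈ dvs K (P ^ i), f e ≤
          ∑ e ∈ (Finset.range (i + 1)).image (fun a => P ^ a), f e :=
          Finset.sum_le_sum_of_subset_of_nonneg hsub fun e _ _ => f_nonneg e
      _ ≤ ∑ a ∈ Finset.range (i + 1), f (P ^ a) :=
          Finset.sum_image_le_of_nonneg (fun p _ => f_nonneg _)
      _ = ∑ a ∈ Finset.range (i + 1), f P ^ a := Finset.sum_congr rfl fun a _ => f_pow P a
  refine h1.trans ?_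
  have hN := two_le P hP
  have hgs := geom_sum_mul_neg (f P) (i + 1)
  have hf0 := f_nonneg P
  have hfp : 0 ≤ f P ^ (i + 1) := pow_nonneg hf0 _
  have hs0 : 0 ≤ ∑ a ∈ Finset.range (i + 1), f P ^ a :=
    Finset.sum_nonneg fun a _ => pow_nonneg hf0 _
  have hx : ∀ y : ℝ, 0 < y → y ^ 2 ≤ Ideal.absNorm P → f P ≤ y⁻¹ := by
    intro y hy h2
    unfold f Nf
    exact inv_anti₀ hy (Real.le_sqrt_of_sq_le h2)
  unfold w
  split_ifs with h
  · have h2 := hx (4 / 3) (by norm_num) (by rw [h]; norm_num)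
    rw [h]
    push_cast
    norm_num at h2 ⊢
    nlinarith
  · have h3 : (3 : ℝ) ≤ Ideal.absNorm P := by
      have : 3 ≤ Ideal.absNorm P := by omega
      exact_mod_cast this
    have h2 := hx (3 / 2) (by norm_num) (by norm_num; linarith)
    norm_num at h2
    rw [one_mul]
    nlinarith

theorem S_one : S (1 : Ideal (𝓞 K)) ≤ 1 := by
  classical
  unfold S
  have h1 : (1 : Ideal (𝓞 K)) ≠ ⊥ := one_ne_zero
  have hsub : dvs K 1 ⊆ {(1 : Ideal (𝓞 K))} := by
    intro e he
    have h2 : (1 : Ideal (𝓞 K)) ≤ e := (pf_DF K 1 h1 e).1 he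
    rw [Ideal.one_eq_top, top_le_iff] at h2
    rw [Finset.mem_singleton, h2, Ideal.one_eq_top]
  calc ∑ e ∈ dvs K 1, f e ≤ ∑ e ∈ ({(1 : Ideal (𝓞 K))} : Finset (Ideal (𝓞 K))), f e :=
        Finset.sum_le_sum_of_subset_of_nonneg hsub fun e _ _ => f_nonneg e
    _ = 1 := by rw [Finset.sum_singleton, f_one]

theorem S_le (k : Ideal (𝓞 K)) : k ≠ 0 → S k ≤ ∏ P ∈ (normalizedFactors k).toFinset, w P := by
  classical
  refine UniqueFactorizationMonoid.induction_on_coprime k ?_ ?_ ?_ ?_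
  · intro h
    exact absurd rfl h
  · intro x hx _
    have h1 : x = 1 := by
      rw [Ideal.isUnit_iff] at hx
      rw [hx, Ideal.one_eq_top]
    rw [h1, normalizedFactors_one]
    simpa using S_one
  · intro P i hP _
    rcases Nat.eq_zero_or_pos i with h0 | h0
    · rw [h0, pow_zero, normalizedFactors_one]
      simpa using S_one
    · have h1 : (normalizedFactors (P ^ i)).toFinset = {P} := by
        rw [normalizedFactors_pow, normalizedFactors_irreducible hP.irreducible,
          Multiset.toFinset_nsmul _ _ h0.ne', normalize_eq, Multiset.toFinset_singleton]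
      rw [h1, Finset.prod_singleton]
      exact S_pow P hP i
  · intro x y hxy hx hy h0
    have hx0 : x ≠ 0 := fun h => h0 (by rw [h, zero_mul])
    have hy0 : y ≠ 0 := fun h => h0 (by rw [h, mul_zero])
    have hdis : Disjoint (normalizedFactors x).toFinset (normalizedFactors y).toFinset := by
      rw [Finset.disjoint_left]
      intro P hPx hPy
      have h1 := dvd_of_mem_normalizedFactors (Multiset.mem_toFinset.1 hPx)
      have h2 := dvd_of_mem_normalizedFactors (Multiset.mem_toFinset.1 hPy)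
      exact (prime_of_normalized_factor P (Multiset.mem_toFinset.1 hPx)).not_isUnit (hxy h1 h2)
    rw [normalizedFactors_mul hx0 hy0, Multiset.toFinset_add, Finset.prod_union hdis]
    refine (S_mul x y hx0 hy0).trans ?_
    refine mul_le_mul (hx hx0) (hy hy0) (Finset.sum_nonneg fun e _ => f_nonneg e) ?_
    refine Finset.prod_nonneg fun P _ => ?_
    unfold w
    split_ifs <;> positivity

open scoped Classical in
theorem pf_DV : X_DV := by
  intro n hn
  refine ⟨2 ^ (2 ^ n), one_le_pow₀ one_le_two, fun K _ _ hK k r j hkr hkj => ?_⟩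
  have hk0 : k ≠ 0 := hkr.k_ne
  have hj0 : j ≠ ⊥ := by
    rintro rfl
    exact hkr.k_ne (le_bot_iff.1 hkj)
  set F := normalizedFactors k with hF
  have hpr : ∀ P ∈ F.toFinset, Prime P := fun P hP =>
    prime_of_normalized_factor P (Multiset.mem_toFinset.1 hP)
  -- the bound for the sum
  have h1 : S k ≤ 2 ^ (2 ^ n) * Nf K r := by
    refine (S_le k hk0).trans ?_
    unfold w
    rw [Finset.prod_mul_distrib, Finset.prod_ite, Finset.prod_const, Finset.prod_const_one, mul_one]
    refine mul_le_mul ?_ ?_ (Finset.prod_nonneg fun P _ => Nat.cast_nonneg _) (by positivity)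
    · refine pow_le_pow_right₀ one_le_two ?_
      have h2 := card_small (K := K) 2 (F.toFinset.filter (fun P => Ideal.absNorm P = 2))
        (fun P hP => hpr P (Finset.mem_filter.1 hP).1)
        (fun P hP => (Finset.mem_filter.1 hP).2.le)
      rw [hK, Nat.factorial_two] at h2
      exact h2
    · have h3 : ∏ P ∈ F.toFinset, P ∣ r := by
        refine Finset.prod_primes_dvd _ hpr fun P hP => ?_
        have h4 : P ∣ k := dvd_of_mem_normalizedFactors (Multiset.mem_toFinset.1 hP)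
        have h5 : P.IsPrime := Ideal.isPrime_of_prime (hpr P hP)
        rw [Ideal.dvd_iff_le]
        exact hkr.le.trans (h5.radical_le_iff.2 (Ideal.dvd_iff_le.1 h4))
      have h6 := map_dvd Ideal.absNorm h3
      rw [map_prod] at h6
      have h7 := Nat.le_of_dvd (Nat.pos_of_ne_zero fun h =>
        hkr.r_ne (Ideal.absNorm_eq_zero_iff.1 h)) h6
      unfold Nf
      exact_mod_cast h7
  have hsub : (dvs K k).filter (fun e => e ≤ j) ⊆ (dvs K k).image (fun e => j * e) := by
    intro e he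
    obtain ⟨he1, he2⟩ := Finset.mem_filter.1 he
    have hke : k ≤ e := (pf_DF K k hkr.k_ne e).1 he1
    obtain ⟨e', he'⟩ := Ideal.dvd_iff_le.2 he2
    refine Finset.mem_image.2 ⟨e', (pf_DF K k hkr.k_ne e').2 (hke.trans ?_), he'.symm⟩
    rw [he']
    exact Ideal.mul_le_right
  calc ∑ e ∈ (dvs K k).filter (fun e => e ≤ j), (Real.sqrt (Nf K e))⁻¹ ≤
      ∑ e ∈ (dvs K k).image (fun e => j * e), f e :=
        Finset.sum_le_sum_of_subset_of_nonneg hsub fun e _ _ => f_nonneg e
    _ ≤ ∑ e ∈ dvs K k, f (j * e) := Finset.sum_image_le_of_nonneg (fun p _ => f_nonneg _)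
    _ = f j * S k := by
        unfold S
        rw [Finset.mul_sum]
        exact Finset.sum_congr rfl fun e _ => f_mul _ _
    _ ≤ f j * (2 ^ (2 ^ n) * Nf K r) := mul_le_mul_of_nonneg_left h1 (f_nonneg j)
    _ = 2 ^ (2 ^ n) * Nf K r * (Real.sqrt (Nf K j))⁻¹ := by
        unfold f
        ring

end Pool.Agent.H20.SX.DV
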