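import Pool.Agent.H31.SX.TargetsD
import Pool.Agent.H34.TC.EX

/-!
X_GX: the greatest common divisor exists.
-/

set_option autoImplicit false

open NumberField
open scoped nonZeroDivisors

namespace Pool.Agent.H20.SX.GX

open Pool.Agent.H25.HK Pool.Agent.H23.LB Pool.Agent.H31.SX

theorem mono {K : Type} [Field K] [NumberField K] (L : FI K) (g : K) (I J : Ideal (𝓞 K))
    (hIJ : I ≤ J) (h2 : g ∈ (I : FI K) * L) : g ∈ (J : FI K) * L := by
  have h5 : (I : FI K) * L ≤ (J : FI K) * L :=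
    mul_le_mul_left ((FractionalIdeal.coeIdeal_le_coeIdeal K).2 hIJ) _
  exact h5 h2

theorem top_mul' {K : Type} [Field K] [NumberField K] (J : Ideal (𝓞 K)) : ⊤ * J = J := by
  rw [← Ideal.one_eq_top, one_mul]

theorem mul_top' {K : Type} [Field K] [NumberField K] (J : Ideal (𝓞 K)) : J * ⊤ = J := by
  rw [← Ideal.one_eq_top, mul_one]

theorem pf_GX : X_GX := by
  intro K _ _ k L g hk hL hg
  have htop : ((⊤ : Ideal (𝓞 K)) : FI K) = 1 := FractionalIdeal.coeIdeal_top (𝓞 K)⁰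
  have h1 : g ∈ ((⊤ : Ideal (𝓞 K)) : FI K) * L := by
    rw [htop, one_mul]
    exact hg
  have htb : (⊤ : Ideal (𝓞 K)) ≠ ⊥ := top_ne_bot
  obtain ⟨e, he1, he2, he3, he4⟩ := Pool.Agent.H34.TC.pf_EX K ⊤ k htb hk L hL g h1
  rw [top_mul' e] at he2
  have he3' : ∀ e' : Ideal (𝓞 K), k ≤ e' → g ∈ (e' : FI K) * L → e ≤ e' := by
    intro e' h2 h3
    refine he3 e' h2 ?_
    rw [top_mul' e']
    exact h3
  have he4' : ∀ l : Ideal (𝓞 K), l ⊔ k = ⊤ → g ∈ (l : FI K) * L →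
      g ∈ ((l * e : Ideal (𝓞 K)) : FI K) * L := by
    intro l hl h3
    have h4 := he4 l hl
    rw [mul_top' l] at h4
    exact h4 h3
  refine ⟨e, ⟨he1, he2, he3'⟩, ?_, ?_⟩
  · intro l κ hl hκ h2
    constructor
    · exact he3' κ hκ (mono L g (l * κ) κ Ideal.mul_le_right h2)
    · exact he4' l hl (mono L g (l * κ) l Ideal.mul_le_left h2)
  · exact Ideal.dvd_iff_le.2 he1

end Pool.Agent.H20.SX.GX
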